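import Pool.Agent.Lib.MP_ac8845_lc.Locality

/-!
# Linear monomial space lower bound for Tseitin formulas on 3-regular expanders
-/

open MvPolynomial

namespace Pool.Agent.Results.MP_ac8845_lc.MonomialSpace

universe u v

section Definitions

variable {V : Type v} [Fintype V]

/-- The number of edges of `G` between `W` and its complement. -/
noncomputable def cutSize (G : SimpleGraph V) (W : Finset V) : ℕ :=
  {e : Sym2 V | e ∈ G.edgeSet ∧ ∃ x ∈ W, ∃ y ∉ W, e = s(x, y)}.ncard

/-- The connectivity expansion `e(G)`: the minimum of `cutSize G W` over all `W ⊆ V` with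
`|W| / |V| ∈ [1/3, 2/3]`. -/
noncomputable def connExpansion (G : SimpleGraph V) : ℕ :=
  sInf {m : ℕ | ∃ W : Finset V, (1 / 3 : ℝ) ≤ (W.card : ℝ) / (Fintype.card V : ℝ) ∧
    (W.card : ℝ) / (Fintype.card V : ℝ) ≤ 2 / 3 ∧ m = cutSize G W}

/-- The variables: `(e, true)` is the variable `x_e` and `(e, false)` is its twin. -/
abbrev TVar (G : SimpleGraph V) : Type v := G.edgeSet × Bool

open scoped Classical in
/-- The set of edges of `G` incident to `x`. -/
noncomputable def incEdges (G : SimpleGraph V) (x : V) : Finset G.edgeSet :=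
  Finset.univ.filter (fun e => x ∈ (e : Sym2 V))

/-- The axioms of polynomial calculus over `F` for the Tseitin formula of `G` and `w`: the Boolean
axioms, the twin variable axioms, and, for every vertex `x` and every assignment `a` to the edges
at `x` that violates the parity constraint at `x`, the monomial encoding the clause that is
falsified exactly by `a`. -/
inductive IsAxiom (F : Type u) [Field F] (G : SimpleGraph V) (w : V → ZMod 2) :
    MvPolynomial (TVar G) F → Prop
  | boolean (i : TVar G) : IsAxiom F G w (X i ^ 2 - X i)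
  | twin (e : G.edgeSet) : IsAxiom F G w (X (e, true) + X (e, false) - 1)
  | clause (x : V) (a : G.edgeSet → Bool)
      (ha : ∑ e ∈ incEdges G x, (if a e = true then (1 : ZMod 2) else 0) ≠ w x) :
      IsAxiom F G w (∏ e ∈ incEdges G x, X (e, a e))

open scoped Classical in
/-- The steps of a refutation: from one memory configuration to the next. -/
inductive Step (F : Type u) [Field F] (G : SimpleGraph V) (w : V → ZMod 2) :
    Finset (MvPolynomial (TVar G) F) → Finset (MvPolynomial (TVar G) F) → Prop
  | download (P : Finset (MvPolynomial (TVar G) F)) (p : MvPolynomial (TVar G) F)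
      (hp : IsAxiom F G w p) : Step F G w P (insert p P)
  | linear (P : Finset (MvPolynomial (TVar G) F)) (p : MvPolynomial (TVar G) F)
      (hp : p ∈ Submodule.span F (P : Set (MvPolynomial (TVar G) F))) :
      Step F G w P (insert p P)
  | mul (P : Finset (MvPolynomial (TVar G) F)) (i : TVar G) (p : MvPolynomial (TVar G) F)
      (hp : p ∈ P) : Step F G w P (insert (X i * p) P)
  | erase (P : Finset (MvPolynomial (TVar G) F)) (p : MvPolynomial (TVar G) F) :
      Step F G w P (P.erase p)

/-- A polynomial calculus refutation of the Tseitin formula of `G` and `w` over `F`. -/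
structure Refutation (F : Type u) [Field F] (G : SimpleGraph V) (w : V → ZMod 2) where
  /-- the number of steps -/
  length : ℕ
  /-- the memory configurations -/
  conf : ℕ → Finset (MvPolynomial (TVar G) F)
  start : conf 0 = ∅
  step : ∀ t < length, Step F G w (conf t) (conf (t + 1))
  final : (1 : MvPolynomial (TVar G) F) ∈ conf length

open scoped Classical in
/-- The set of monomials occurring in a configuration. -/
noncomputable def monomials {F : Type u} [Field F] {G : SimpleGraph V}
    (P : Finset (MvPolynomial (TVar G) F)) : Finset (TVar G →₀ ℕ) :=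
  P.biUnion MvPolynomial.support

/-- The monomial space of a refutation: the maximum over its configurations of the number of
distinct monomials occurring in it. -/
noncomputable def Refutation.MSp {F : Type u} [Field F] {G : SimpleGraph V} {w : V → ZMod 2}
    (π : Refutation F G w) : ℕ :=
  (Finset.range (π.length + 1)).sup (fun t => (monomials (π.conf t)).card)

end Definitions

section Proof

set_option linter.unusedSectionVars false

open Pool.Agent.Lib.MP_ac8845_lc

variable {V : Type v} [Fintype V] {G : SimpleGraph V} {F : Type u} [Field F]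

/-- The value of a variable under a Boolean assignment. -/
noncomputable def val (F : Type u) [Field F] (x : G.edgeSet → ZMod 2) (i : TVar G) : F :=
  if x i.1 = (if i.2 = true then 1 else 0) then 1 else 0

lemma val_bool (x : G.edgeSet → ZMod 2) (i : TVar G) : val F x i = 0 ∨ val F x i = 1 := by
  unfold val
  by_cases h : x i.1 = (if i.2 = true then 1 else 0)
  · rw [if_pos h]
    exact Or.inr rfl
  · rw [if_neg h]
    exact Or.inl rfl

open scoped Classical in
/-- The edges occurring in a monomial. -/
noncomputable def msupp (m : TVar G →₀ ℕ) : Finset G.edgeSet := m.support.image Prod.fst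

/-- The value of a monomial. -/
noncomputable def mval (F : Type u) [Field F] (m : TVar G →₀ ℕ) (x : G.edgeSet → ZMod 2) : F :=
  ∏ i ∈ m.support, val F x i ^ m i

lemma mval_congr (m : TVar G →₀ ℕ) (x y : G.edgeSet → ZMod 2) (h : ∀ e ∈ msupp m, x e = y e) :
    mval F m x = mval F m y := by
  classical
  unfold mval
  refine Finset.prod_congr rfl ?_
  intro i hi
  have h1 : x i.1 = y i.1 := h _ (Finset.mem_image_of_mem _ hi)
  unfold val
  rw [h1]

lemma mval_kill (m : TVar G →₀ ℕ) (e : G.edgeSet) (he : e ∈ msupp m) :
    ∃ κ : ZMod 2, ∀ x : G.edgeSet → ZMod 2, x e = κ → mval F m x = 0 := by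
  classical
  obtain ⟨i, hi, rfl⟩ := Finset.mem_image.1 he
  refine ⟨(if i.2 = true then 0 else 1), ?_⟩
  intro x hx
  unfold mval
  refine Finset.prod_eq_zero hi ?_
  have h1 : val F x i = 0 := by
    unfold val
    rw [hx]
    cases i.2 <;> simp
  rw [h1, zero_pow (Finsupp.mem_support_iff.1 hi)]

lemma eval_eq_mval (x : G.edgeSet → ZMod 2) (p : MvPolynomial (TVar G) F) :
    eval (val F x) p = ∑ m ∈ p.support, p.coeff m * mval F m x := by
  rw [eval_eq]
  rfl

/-- The assignment `x` satisfies the configuration `P`. -/
def SatConf (x : G.edgeSet → ZMod 2) (P : Finset (MvPolynomial (TVar G) F)) : Prop :=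
  ∀ p ∈ P, eval (val F x) p = 0

lemma incEdges_eq (x : V) : incEdges G x = inc G x := by
  ext e
  simp [incEdges, inc]

lemma satConf_congr {x z : G.edgeSet → ZMod 2} {P : Finset (MvPolynomial (TVar G) F)}
    (h : ∀ m ∈ monomials P, mval F m z = mval F m x) (hz : SatConf z P) : SatConf x P := by
  classical
  intro p hp
  have h1 := hz p hp
  rw [eval_eq_mval] at h1 ⊢
  rw [← h1]
  refine Finset.sum_congr rfl ?_
  intro m hm
  rw [h m (Finset.mem_biUnion.2 ⟨p, hp, hm⟩)]

lemma sat_clause {w : V → ZMod 2} {x : G.edgeSet → ZMod 2} {v : V} (hv : bd G x v = w v)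
    (a : G.edgeSet → Bool)
    (ha : ∑ e ∈ incEdges G v, (if a e = true then (1 : ZMod 2) else 0) ≠ w v) :
    eval (val F x) (∏ e ∈ incEdges G v, X (e, a e) : MvPolynomial (TVar G) F) = 0 := by
  classical
  rw [map_prod]
  by_contra hne
  have hne' := Finset.prod_ne_zero_iff.1 hne
  apply ha
  rw [← hv, bd_apply, incEdges_eq]
  refine Finset.sum_congr rfl ?_
  intro e he
  have h1 := hne' e (by rw [incEdges_eq]; exact he)
  rw [eval_X] at h1
  unfold val at h1
  by_contra h2
  exact h1 (if_neg (fun h => h2 h.symm))

/-- Soundness of a step, up to the choice of one vertex. -/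
lemma step_sound {w : V → ZMod 2} [Nonempty V] {P P' : Finset (MvPolynomial (TVar G) F)}
    (h : Step F G w P P') :
    ∃ v : V, ∀ x : G.edgeSet → ZMod 2, bd G x v = w v → SatConf x P → SatConf x P' := by
  classical
  cases h with
  | download p hp =>
    cases hp with
    | boolean i =>
      refine ⟨Classical.arbitrary V, ?_⟩
      intro x _ hx q hq
      rcases Finset.mem_insert.1 hq with rfl | hq
      · rw [map_sub, map_pow, eval_X]
        rcases val_bool (F := F) x i with h | h <;> rw [h] <;> simp
      · exact hx q hq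
    | twin e =>
      refine ⟨Classical.arbitrary V, ?_⟩
      intro x _ hx q hq
      rcases Finset.mem_insert.1 hq with rfl | hq
      · rw [map_sub, map_add, eval_X, eval_X, map_one]
        unfold val
        simp only [if_true]
        have h2 : ∀ a : ZMod 2, a = 0 ∨ a = 1 := by decide
        rcases h2 (x e) with h | h <;> simp [h]
      · exact hx q hq
    | clause v a ha =>
      refine ⟨v, ?_⟩
      intro x hv hx q hq
      rcases Finset.mem_insert.1 hq with rfl | hq
      · exact sat_clause hv a ha
      · exact hx q hq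
  | linear p hp =>
    refine ⟨Classical.arbitrary V, ?_⟩
    intro x _ hx q hq
    rcases Finset.mem_insert.1 hq with rfl | hq
    · refine Submodule.span_induction (p := fun q _ => eval (val F x) q = 0) ?_ ?_ ?_ ?_ hp
      · intro q hq
        exact hx q hq
      · simp
      · intro q1 q2 _ _ h1 h2
        rw [map_add, h1, h2, add_zero]
      · intro c q _ h1
        rw [smul_eval, h1, mul_zero]
    · exact hx q hq
  | mul i p hp =>
    refine ⟨Classical.arbitrary V, ?_⟩
    intro x _ hx q hq
    rcases Finset.mem_insert.1 hq with rfl | hq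
    · rw [map_mul, hx p hp, mul_zero]
    · exact hx q hq
  | erase p =>
    refine ⟨Classical.arbitrary V, ?_⟩
    intro x _ hx q hq
    exact hx q (Finset.mem_of_mem_erase hq)

lemma bdry_card (W : Finset V) : (bdry G W).card = cutSize G W := by
  classical
  unfold cutSize
  have h1 : {e : Sym2 V | e ∈ G.edgeSet ∧ ∃ x ∈ W, ∃ y ∉ W, e = s(x, y)} =
      Subtype.val '' (bdry G W : Set G.edgeSet) := by
    ext e
    simp only [Set.mem_image, Finset.mem_coe, mem_bdry, Subtype.exists, exists_and_right,
      exists_eq_right]
    constructor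
    · rintro ⟨he, h⟩
      exact ⟨he, h⟩
    · rintro ⟨he, h⟩
      exact ⟨he, h⟩
  rw [h1, Set.ncard_image_of_injective _ Subtype.val_injective, Set.ncard_coe_finset]

lemma inc_card (x : V) : (inc G x).card = (G.neighborSet x).ncard := by
  classical
  have h1 : (inc G x : Set G.edgeSet) =
      (fun y : G.neighborSet x => (⟨s(x, y.1), y.2⟩ : G.edgeSet)) '' Set.univ := by
    ext e
    simp only [Finset.mem_coe, mem_inc, Set.mem_image, Set.mem_univ, true_and]
    constructor
    · intro h
      obtain ⟨y, hy⟩ := Sym2.mem_iff_exists.1 h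
      have hadj : G.Adj x y := by
        have h2 := e.2
        rwa [hy] at h2
      exact ⟨⟨y, hadj⟩, Subtype.ext hy.symm⟩
    · rintro ⟨y, rfl⟩
      exact Sym2.mem_mk_left _ _
  have h2 : Function.Injective (fun y : G.neighborSet x => (⟨s(x, y.1), y.2⟩ : G.edgeSet)) := by
    intro y z hyz
    have h3 : s(x, y.1) = s(x, z.1) := congrArg Subtype.val hyz
    exact Subtype.ext (Sym2.congr_right.1 h3)
  rw [← Set.ncard_coe_finset, h1, Set.ncard_image_of_injective _ h2, Set.ncard_univ]
  rfl

/-- The lower bound in explicit form. -/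
theorem expansion_le (hG : G.Connected) (hdeg : ∀ x : V, (G.neighborSet x).ncard = 3)
    {w : V → ZMod 2} (hw : ∑ x, w x = 1) (π : Refutation F G w) :
    connExpansion G ≤ 12 * π.MSp + 1 := by
  classical
  by_contra hlt
  push Not at hlt
  set s := π.MSp with hs
  have hMS : ∀ t ≤ π.length, (monomials (π.conf t)).card ≤ s := by
    intro t ht
    rw [hs]
    exact Finset.le_sup (f := fun t => (monomials (π.conf t)).card)
      (Finset.mem_range.2 (Nat.lt_succ_of_le ht))
  -- s is positive
  have hs1 : 1 ≤ s := by
    refine le_trans ?_ (hMS π.length le_rfl)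
    rw [Nat.one_le_iff_ne_zero, Finset.card_ne_zero]
    refine ⟨0, ?_⟩
    refine Finset.mem_biUnion.2 ⟨1, π.final, ?_⟩
    rw [mem_support_iff, coeff_zero_one]
    exact one_ne_zero
  have hne : Nonempty V := hG.nonempty
  obtain ⟨v0⟩ := hne
  have hne' : Nonempty V := ⟨v0⟩
  have hinc : ∀ x : V, (inc G x).card ≤ 3 := fun x => by rw [inc_card, hdeg x]
  have hedge : Nonempty G.edgeSet := by
    have h1 : (inc G v0).card = 3 := by rw [inc_card, hdeg v0]
    obtain ⟨e, -⟩ := Finset.card_pos.1 (by rw [h1]; norm_num : 0 < (inc G v0).card)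
    exact ⟨e⟩
  have hV : 2 ≤ Fintype.card V := by
    obtain ⟨e⟩ := hedge
    obtain ⟨a, b, hab, -⟩ := edge_eq G e
    exact Fintype.one_lt_card_iff.2 ⟨a, b, hab.ne⟩
  -- the window
  have hwin : ∀ W : Finset V, Fintype.card V ≤ 3 * W.card → 3 * W.card ≤ 2 * Fintype.card V →
      12 * s + 1 < (bdry G W).card := by
    intro W h1 h2
    refine lt_of_lt_of_le hlt ?_
    rw [bdry_card]
    refine Nat.sInf_le ⟨W, ?_, ?_, rfl⟩
    · have hpos : (0 : ℝ) < Fintype.card V := by exact_mod_cast (by omega : 0 < Fintype.card V)
      rw [le_div_iff₀ hpos]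
      have : (Fintype.card V : ℝ) ≤ 3 * W.card := by exact_mod_cast h1
      linarith
    · have hpos : (0 : ℝ) < Fintype.card V := by exact_mod_cast (by omega : 0 < Fintype.card V)
      rw [div_le_iff₀ hpos]
      have : 3 * (W.card : ℝ) ≤ 2 * Fintype.card V := by exact_mod_cast h2
      linarith
  -- the invariant
  have hinv : ∀ t ≤ π.length, ∃ (C : Finset (Com G.edgeSet)) (S : Finset G.edgeSet),
      2 * C.card ≤ rk (cyc G) (comEdges C) ∧ rk (cyc G) S ≤ 4 * s ∧
      ∀ r ∈ core G (4 * s) S, ∀ x ∈ Fam G w r C, SatConf x (π.conf t) := by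
    intro t
    induction t with
    | zero =>
      intro _
      refine ⟨∅, ∅, by simp, ?_, ?_⟩
      · rw [(isRank_rk (cyc G)).empty]
        exact Nat.zero_le _
      · intro r _ x _ p hp
        rw [π.start] at hp
        simp at hp
    | succ t ih =>
      intro ht
      obtain ⟨C, S, hC, hS, hsat⟩ := ih (by omega)
      obtain ⟨v, hv⟩ := step_sound (π.step t (by omega))
      obtain ⟨C', S', hC', hS', hloc⟩ := locality G msupp (mval F) mval_congr mval_kill
        (monomials (π.conf (t + 1))) w C hC
      have hS'' : rk (cyc G) S' ≤ 4 * s :=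
        le_trans hS' (Nat.mul_le_mul_left 4 (hMS (t + 1) ht))
      refine ⟨C', S', hC', hS'', ?_⟩
      intro r hr x hx
      -- a common root
      have hunion : rk (cyc G) (S ∪ S') ≤ 2 * (4 * s) := by
        have := (isRank_rk (cyc G)).union_le S S'
        omega
      obtain ⟨r0, hr0v, hr0⟩ := exists_mem_core hG (k := 4 * s) (t := 12 * s + 1) (by omega)
        (by omega) hinc hV hwin hunion v
      have hr0S : r0 ∈ core G (4 * s) S := core_anti Finset.subset_union_left hr0
      have hr0S' : r0 ∈ core G (4 * s) S' := core_anti Finset.subset_union_right hr0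
      have hreach := core_reach hG (k := 4 * s) (t := 12 * s + 1) (by omega) hwin hS'' hr0S' hr
      obtain ⟨z, hz, hzx⟩ := hloc r0 r hreach x hx
      refine satConf_congr hzx ?_
      refine hv z ?_ (hsat r0 hr0S z hz)
      rw [hz.1, Pi.add_apply]
      have : dl r0 v = (0 : ZMod 2) := by
        unfold dl
        rw [if_neg (Ne.symm hr0v)]
      rw [this, add_zero]
  -- the end
  obtain ⟨C, S, hC, hS, hsat⟩ := hinv π.length le_rfl
  obtain ⟨r, -, hr⟩ := exists_mem_core hG (k := 4 * s) (t := 12 * s + 1) (by omega)
    (by omega) hinc hV hwin (by omega : rk (cyc G) S ≤ 2 * (4 * s)) v0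
  obtain ⟨x, hx⟩ := fam_nonempty G hG hw r hC
  have h1 := hsat r hr x hx 1 π.final
  rw [map_one] at h1
  exact one_ne_zero h1

end Proof

/-- **Linear lower bound on the monomial space of Tseitin formulas on 3-regular expanders**, over
every field. For every `ε > 0` there are `c > 0` and `N` such that for every field `F`, every
connected 3-regular graph `G` on `n ≥ N` vertices with `e(G) ≥ ε n`, every odd-weight `w` and every
polynomial calculus refutation `π` of the Tseitin formula over `F`, the monomial space of `π` is at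
least `c n`. -/
theorem result (ε : ℝ) (hε : 0 < ε) :
    ∃ c : ℝ, 0 < c ∧ ∃ N : ℕ,
      ∀ (F : Type u) [Field F] (V : Type v) [Fintype V] (G : SimpleGraph V),
        G.Connected → (∀ x : V, (G.neighborSet x).ncard = 3) →
        ε * (Fintype.card V : ℝ) ≤ (connExpansion G : ℝ) → N ≤ Fintype.card V →
        ∀ w : V → ZMod 2, ∑ x, w x = 1 → ∀ π : Refutation F G w,
          c * (Fintype.card V : ℝ) ≤ (π.MSp : ℝ) := by
  refine ⟨ε / 13, by positivity, ⌈13 / ε⌉₊, ?_⟩
  intro F _ V _ G hG hdeg hexp hN w hw π
  have h1 : (connExpansion G : ℝ) ≤ 12 * π.MSp + 1 := by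
    exact_mod_cast expansion_le hG hdeg hw π
  have h2 : 13 / ε ≤ Fintype.card V := le_trans (Nat.le_ceil _) (by exact_mod_cast hN)
  rw [div_le_iff₀ hε] at h2
  linarith

end Pool.Agent.Results.MP_ac8845_lc.MonomialSpace
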